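import Pool.Agent.N122.CGr

/-!
# MP_34be05_nt: Calegari–Geraghty vanishing from the congruence subgroup property

`H^i(Y(K), W) = H^i(Γ, C(K, W))`, because the components of `𝐆(ℝ)/A_∞°K_∞°` are contractible
(`Γ = 𝐆(ℚ)₊`, `C(K, W) = {f : 𝐆(𝔸_f) → W | κ f(gκ) = f(g), κ ∈ K}`). If the congruence subgroup
property holds, every Hecke eigensystem in `H^0(Y(K), W)` and `H^1(Y(K), W)` is, at almost all
places, the one of a one-dimensional automorphic representation. For `GL_n` the Hecke polynomials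
are `∏_{j<n} (X - q_v^j χ(ϖ_v))`. For `GL_2` the eigensystems in `H^1_c(Y(K), W)` have the Hecke
polynomials `(X - q_v χ₁(ϖ_v)) (X - χ₂(ϖ_v))` with two Hecke characters. All of them are
Eisenstein.
-/

namespace Pool.Agent.Results.MP_34be05_nt.CongruenceSubgroupProperty

open N122.CG

theorem result {G : Type} [Group G] (A : Adelic G) (hA : A.Known)
    {R : Type} [CommRing R] {W : Type} [AddCommGroup W] [Module R W] (hcsp : CSP A W)
    {K : Subgroup G} (hK : A.IsLevel K) (ρ : Representation R K W) (hρ : SmoothRep A ρ)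
    (l : A.P → R) :
    -- general `𝐆`, degrees zero and one
    ((Eigen0 A ρ l ∨ Eigen1 A ρ l) → OneDim A l) ∧
    -- `GL_n`, degrees zero and one
    (∀ (n : ℕ) (D : GLn A n), D.Known → (Eigen0 A ρ l ∨ Eigen1 A ρ l) → D.OneDimPoly l) ∧
    -- `GL_2`, degrees zero and one, and degree one with compact supports
    (∀ (Bo : Borel G), Bo.Known A → Bo.N ≤ A.G1 → ∀ (D : GLn A 2), D.Known →
      ∀ (E : GL2Borel D Bo), E.Known →
        (Eigen0 A ρ l ∨ Eigen1 A ρ l ∨ EigenC1 A Bo ρ l) → E.Reducible l) := by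
  have h01 : (Eigen0 A ρ l ∨ Eigen1 A ρ l) → OneDim A l := by
    rintro (h | h)
    · exact eigen0 hA hK ρ hρ l h
    · exact eigen1 hA hcsp hK ρ hρ l h
  refine ⟨h01, fun n D hD h => D.oneDimPoly hD l (h01 h), ?_⟩
  rintro Bo hB hN D hD E hE (h | h | h)
  · exact E.reducible_of_oneDim hD hN hE l (h01 (Or.inl h))
  · exact E.reducible_of_oneDim hD hN hE l (h01 (Or.inr h))
  · rcases eigenC1 hA hcsp hB hK ρ hρ l h with h | h
    · exact E.reducible_of_oneDim hD hN hE l h
    · exact E.reducible_of_ps hD hE l h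

end Pool.Agent.Results.MP_34be05_nt.CongruenceSubgroupProperty
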